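import Mathlib

set_option autoImplicit false

/-!
# Statements of the project MX3 (helper576), part 1: three logarithms of rational numbers
-/

namespace Pool.Agent.N576.MX3

noncomputable section

open Finset

/-- three positive rational numbers `a / d` and three integers -/
structure Q3 where
  a1 : ℕ
  a2 : ℕ
  a3 : ℕ
  d1 : ℕ
  d2 : ℕ
  d3 : ℕ
  b1 : ℤ
  b2 : ℤ
  b3 : ℤ

/-- the sizes -/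
structure Q3.Ok (q : Q3) (H : ℕ) : Prop where
  a1 : 1 ≤ q.a1 ∧ q.a1 ≤ H
  a2 : 1 ≤ q.a2 ∧ q.a2 ≤ H
  a3 : 1 ≤ q.a3 ∧ q.a3 ≤ H
  d1 : 1 ≤ q.d1 ∧ q.d1 ≤ H
  d2 : 1 ≤ q.d2 ∧ q.d2 ≤ H
  d3 : 1 ≤ q.d3 ∧ q.d3 ≤ H
  b1 : |q.b1| ≤ H
  b2 : |q.b2| ≤ H
  b3 : |q.b3| ≤ H
  ne : q.b3 ≠ 0

def Q3.l1 (q : Q3) : ℝ := Real.log ((q.a1 : ℝ) / q.d1)
def Q3.l2 (q : Q3) : ℝ := Real.log ((q.a2 : ℝ) / q.d2)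
def Q3.l3 (q : Q3) : ℝ := Real.log ((q.a3 : ℝ) / q.d3)

/-- the linear form -/
def Q3.Lam (q : Q3) : ℝ := q.b1 * q.l1 + q.b2 * q.l2 + q.b3 * q.l3

def Q3.g1 (q : Q3) (l : ℕ × ℕ × ℕ) : ℤ := q.b3 * l.1 - q.b1 * l.2.2
def Q3.g2 (q : Q3) (l : ℕ × ℕ × ℕ) : ℤ := q.b3 * l.2.1 - q.b2 * l.2.2

/-- the exact exponent -/
def Q3.E (q : Q3) (l : ℕ × ℕ × ℕ) : ℝ := l.1 * q.l1 + l.2.1 * q.l2 + l.2.2 * q.l3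

/-- the approximate exponent -/
def Q3.om (q : Q3) (l : ℕ × ℕ × ℕ) : ℝ := (q.g1 l * q.l1 + q.g2 l * q.l2) / q.b3

/-- the cube -/
def Cu (L : ℕ) : Finset (ℕ × ℕ × ℕ) := range L ×ˢ (range L ×ˢ range L)

/-- the arithmetic values -/
def Q3.A (q : Q3) (L : ℕ) (p : ℕ × ℕ × ℕ → ℤ) (m1 m2 s : ℕ) : ℝ :=
  ∑ l ∈ Cu L, p l * (q.g1 l : ℝ) ^ m1 * (q.g2 l : ℝ) ^ m2 * Real.exp (s * q.E l)

/-- the analytic function and its derivatives -/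
def Q3.ph (q : Q3) (L : ℕ) (p : ℕ × ℕ × ℕ → ℤ) (m1 m2 k : ℕ) (x : ℝ) : ℝ :=
  ∑ l ∈ Cu L, p l * (q.g1 l : ℝ) ^ m1 * (q.g2 l : ℝ) ^ m2 * q.om l ^ k * Real.exp (x * q.om l)

/-- the arithmetic values are zero or not small -/
def LIOU : Prop := ∀ (q : Q3) (H L : ℕ) (p : ℕ × ℕ × ℕ → ℤ) (m1 m2 s : ℕ), q.Ok H →
  q.A L p m1 m2 s = 0 ∨ 1 ≤ |q.A L p m1 m2 s| * (H : ℝ) ^ (3 * L * s)

/-- the auxiliary polynomial -/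
def SIEG : Prop := ∀ (q : Q3) (H L T S : ℕ), q.Ok H → 1 ≤ L → 1 ≤ T → 1 ≤ S → 2 * (T ^ 2 * S) ≤ L ^ 3 →
  ∃ p : ℕ × ℕ × ℕ → ℤ, (∃ l ∈ Cu L, p l ≠ 0) ∧
    (∀ l, |(p l : ℝ)| ≤ (L : ℝ) ^ 3 * (2 * H * L) ^ (2 * T) * (H : ℝ) ^ (3 * L * S)) ∧
    ∀ m1 m2 s, m1 < T → m2 < T → s < S → q.A L p m1 m2 s = 0

/-- the two values are close -/
def CMP : Prop := ∀ (q : Q3) (H L T s : ℕ) (p : ℕ × ℕ × ℕ → ℤ) (P : ℝ) (m1 m2 : ℕ), q.Ok H → 1 ≤ L → m1 ≤ T → m2 ≤ T →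
  (∀ l, |(p l : ℝ)| ≤ P) → |q.Lam| * (L * s) ≤ 1 →
  |q.ph L p m1 m2 0 s - q.A L p m1 m2 s| ≤
    (L : ℝ) ^ 3 * P * (2 * H * L) ^ (2 * T) * (H : ℝ) ^ (3 * L * s) * (2 * (L * s)) * |q.Lam|

/-- derivatives -/
def DER : Prop := ∀ (q : Q3) (H L : ℕ) (p : ℕ × ℕ × ℕ → ℤ) (m1 m2 k : ℕ) (x ε : ℝ), q.Ok H → 3 ≤ H →
  (∀ i j, i + j = k → |q.ph L p (m1 + i) (m2 + j) 0 x| ≤ ε) →
  |q.ph L p m1 m2 k x| ≤ (2 * Real.log H) ^ k * ε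

/-- growth -/
def GROW : Prop := ∀ (q : Q3) (H L T N : ℕ) (p : ℕ × ℕ × ℕ → ℤ) (P : ℝ) (m1 m2 : ℕ) (x X : ℝ), q.Ok H → 3 ≤ H → 1 ≤ L →
  m1 ≤ T → m2 ≤ T → (∀ l, |(p l : ℝ)| ≤ P) → |q.Lam| ≤ 1 → |x| ≤ X →
  |q.ph L p m1 m2 N x| ≤ (L : ℝ) ^ 3 * P * (2 * H * L) ^ (2 * T) * (4 * L * Real.log H) ^ N *
    Real.exp (4 * L * Real.log H * X)

/-- the derivative chain -/
def CHAIN : Prop := ∀ (q : Q3) (L : ℕ) (p : ℕ × ℕ × ℕ → ℤ) (m1 m2 k : ℕ) (x : ℝ),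
  HasDerivAt (fun y => q.ph L p m1 m2 k y) (q.ph L p m1 m2 (k + 1) x) x

/-- Schwarz lemma with approximate multiple zeros at `0, 1, ..., S - 1` -/
def SCHW : Prop := ∀ (f : ℕ → ℝ → ℝ) (S t : ℕ) (X ε M : ℝ), 1 ≤ S → 1 ≤ t → (S : ℝ) ≤ X → 0 ≤ ε →
  (∀ k x, HasDerivAt (f k) (f (k + 1) x) x) → (∀ k < t, ∀ s < S, |f k s| ≤ ε) →
  (∀ x, 0 ≤ x → x ≤ X → |f (S * t) x| ≤ M) →
  ∀ x, 0 ≤ x → x ≤ X → |f 0 x| ≤ M * X ^ (S * t) / (S * t).factorial +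
    ε * (((S * t : ℕ) : ℝ) + 1) * (((t : ℝ) + 2) * (X + 1)) ^ (S * t)

/-- one step of the extrapolation -/
def STEP : Prop := ∀ (q : Q3) (H L T0 t S S' : ℕ) (p : ℕ × ℕ × ℕ → ℤ) (P : ℝ), q.Ok H → 3 ≤ H → 1 ≤ L → 1 ≤ t →
  2 * t ≤ T0 → 1 ≤ S → S ≤ S' → 1 ≤ P → (∀ l, |(p l : ℝ)| ≤ P) → |q.Lam| * (L * S') ≤ 1 →
  (L : ℝ) ^ 3 * P * (2 * H * L) ^ (2 * T0) * (4 * L * Real.log H) ^ (S * t) * Real.exp (4 * L * Real.log H * S') *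
    (S' : ℝ) ^ (S * t) / (S * t).factorial * (H : ℝ) ^ (3 * L * S') ≤ 1 / 4 →
  (2 * Real.log H) ^ t * ((L : ℝ) ^ 3 * P * (2 * H * L) ^ (2 * T0) * (H : ℝ) ^ (3 * L * S') * (2 * (L * S')) * |q.Lam|) *
    (((S * t : ℕ) : ℝ) + 1) * (((t : ℝ) + 2) * (S' + 1)) ^ (S * t) * (H : ℝ) ^ (3 * L * S') ≤ 1 / 4 →
  (∀ m1 m2 s, m1 < 2 * t → m2 < 2 * t → s < S → q.A L p m1 m2 s = 0) →
  ∀ m1 m2 s, m1 < t → m2 < t → s < S' → q.A L p m1 m2 s = 0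

/-- the final separation -/
def VAND : Prop := ∀ (q : Q3) (H L T S : ℕ) (p : ℕ × ℕ × ℕ → ℤ), q.Ok H → 3 * L ≤ T → L ^ 3 ≤ S → q.Lam ≠ 0 →
  (∀ m1 m2 s, m1 < T → m2 < T → s < S → q.A L p m1 m2 s = 0) → ∀ l ∈ Cu L, p l = 0

/-- **Linear forms in three logarithms of rational numbers.** -/
def B3 : Prop := ∃ (C : ℝ) (K : ℕ), 1 ≤ C ∧ ∀ (q : Q3) (H : ℕ), 3 ≤ H → q.Ok H → q.Lam ≠ 0 →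
  Real.exp (-(C * Real.log H ^ K)) ≤ |q.Lam|

/-- few rational numbers of small height in a multiplicative group of rank two -/
def RANK2 : Prop := ∀ (H : ℕ) (R : Finset ℚ), 2 ≤ H → (∀ r ∈ R, 0 < r ∧ r.num ≤ H ∧ r.den ≤ H) →
  (∀ x ∈ R, ∀ y ∈ R, ∀ z ∈ R, x ≠ y → z ≠ x → z ≠ y → ∃ a b c : ℤ, c ≠ 0 ∧
    a * Real.log x + b * Real.log y + c * Real.log z = 0) →
  (R.card : ℝ) ≤ (2 * Nat.log 2 H + 1) ^ 2 + 2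

end

end Pool.Agent.N576.MX3
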