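import Mathlib
import Pool.Agent.N36.MX3_LIOU
import Pool.Agent.N169.MX3_SIEG
import Pool.Agent.N910.MX3_DER
import Pool.Agent.N952.MX3_SCHW
import Pool.Agent.N152.MX3_VAND
import Pool.Agent.N692.MX3_RANK2
import Pool.Agent.N530.MX3_STEP
import Pool.Agent.N682.MX3.B3

set_option autoImplicit false

/-!
# Linear forms in three logarithms of rational numbers
-/

namespace Pool.Agent.N576.MX3

theorem step : STEP := Pool.Agent.N530.MX3.step_of Pool.Agent.N36.MX3L.liou Pool.Agent.N36.MX3L.cmp
  Pool.Agent.N910.MX3.der Pool.Agent.N910.MX3.grow Pool.Agent.N910.MX3.chain Pool.Agent.N952.MX3.schw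

/-- **Linear forms in three logarithms of rational numbers** -/
theorem b3 : B3 := Pool.Agent.N682.MX3.b3_of Pool.Agent.N169.MX3.sieg step Pool.Agent.N152.MX3.vand

theorem rank2 : RANK2 := Pool.Agent.N692.MX3R.rank2

end Pool.Agent.N576.MX3
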