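import Mathlib
import Pool.Agent.N576.MX3.D
import Pool.Agent.TH880.MK.M9

set_option autoImplicit false

/-!
# Statements of the project MX3 (helper576), part 2: words
-/

namespace Pool.Agent.N576.MX3

open Pool.Agent.H499R2 Pool.Agent.TH880.MK

noncomputable section

/-- few branching nodes in a pair of large cones -/
def BRC : Prop := ∃ (C : ℝ) (K : ℕ), 1 ≤ C ∧ ∀ (H : ℕ) (Λ : ℝ) (k k' : List Bool) (R : List Bool → List Bool → Prop),
  2 ≤ H → Real.exp (C * (Real.log H + 1) ^ K) ≤ Λ → HypL H Λ k k' R → (∀ l l', R l l' → l ≠ l') →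
  ∀ T : Finset (List Bool), (∀ i ∈ T, k <+: i ∧ Br R i) → (T.card : ℝ) ≤ C * (Real.log H + 1) ^ 2

end

end Pool.Agent.N576.MX3
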