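import Mathlib
import Pool.Agent.N576.MK.A7

set_option autoImplicit false

/-!
# The counting of exceptional words with an abstract bound for the number of branching nodes in a pair of cones
-/

namespace Pool.Agent.N576.MX3

open Pool.Agent.H499R2 Pool.Agent.TH880.MK Pool.Agent.N576.MK

noncomputable section

/-- few branching nodes in each pair of cones -/
def DP (H ρ : ℕ) (D : ℝ) : Prop := ∀ (k k' : List Bool) (R : List Bool → List Bool → Prop), HypL H (4 ^ ρ) k k' R →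
  (∀ l l', R l l' → l ≠ l') → ∀ T : Finset (List Bool), (∀ i ∈ T, k <+: i ∧ Br R i) → (T.card : ℝ) ≤ 9 * D

/-- a pair of cones -/
theorem pair_cbD {H ρ S0 : ℕ} (hH : 2 ≤ H) (hs : (10 : ℝ) ^ 20 * H ^ 20 ≤ 4 ^ ρ) {Q : List Bool → Prop}
    {cb : List Bool → ℝ} {W : ℝ} (C : Cls H S0 Q cb W) {D : ℝ}
    (hD : DP H ρ D) {k k' : List Bool} (hk : k ∈ PN H ρ)
    (hk' : k' ∈ PN H ρ) (X : Finset (List Bool)) (φ : List Bool → List Bool)
    (hX : ∀ l ∈ X, Q l ∧ k <+: l ∧ k' <+: φ l ∧ sz l ≤ H ∧ sz (φ l) ≤ H ∧ φ l ≠ l ∧ FF (φ l) = FF l)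
    {κ : List Bool} (hκ : k <+: κ) (hXκ : ∀ l ∈ X, κ <+: l) : (X.card : ℝ) ≤ cb κ * (9 * D + 1) := by
  classical
  obtain ⟨g1, g2⟩ := mem_PN.mp hk
  obtain ⟨g1', g2'⟩ := mem_PN.mp hk'
  have hb := big_sq g2.1.1
  have hb' := big_sq g2'.1.1
  have hyp : HypL H (4 ^ ρ) k k' (fun l l' => l ∈ X ∧ l' = φ l) := by
    refine ⟨hs, hb.1, hb.2, hb'.1, hb'.2, g2.1.2, g2'.1.2, ?_⟩
    rintro l l' ⟨hl, rfl⟩
    obtain ⟨-, w2, w3, w4, w5, -, w7⟩ := hX l hl
    exact ⟨w2, w3, w4, w5, w7⟩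
  have e1 : ∀ l ∈ X, ∃ l', (fun l l' => l ∈ X ∧ l' = φ l) l l' := fun l hl => ⟨φ l, hl, rfl⟩
  have hN2 := hD k k' _ hyp (by
    rintro l l' ⟨h1, h2⟩ h3
    exact (hX l h1).2.2.2.2.2.1 (by rw [← h2, ← h3])) ((Bst X).filter (fun i => k <+: i)) (by
    intro i hi
    rw [Finset.mem_filter] at hi
    exact ⟨hi.2, Br_of_BrF e1 (Bst_br hi.1)⟩)
  have h1 := C.comb κ X (fun l hl => by
    obtain ⟨w1, w2, w3, w4, w5, w6, w7⟩ := hX l hl
    exact ⟨w1, ⟨φ l, w6, w7⟩, w4, hXκ l hl⟩)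
  refine h1.trans (mul_le_mul_of_nonneg_left ?_ (C.pos κ))
  have h2 : ((Bst X).filter (fun i => κ <+: i)).card ≤ ((Bst X).filter (fun i => k <+: i)).card := by
    apply Finset.card_le_card
    intro i hi
    rw [Finset.mem_filter] at hi ⊢
    exact ⟨hi.1, hκ.trans hi.2⟩
  have h3 : (((Bst X).filter (fun i => κ <+: i)).card : ℝ) ≤ 9 * D := by
    refine le_trans ?_ hN2
    exact_mod_cast h2
  linarith


open scoped Classical in
/-- a window of levels -/
theorem window_cbD {H ρ S0 : ℕ} (hH : 2 ≤ H) (hs : (10 : ℝ) ^ 20 * H ^ 20 ≤ 4 ^ ρ) {Q : List Bool → Prop}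
    {cb : List Bool → ℝ} {W : ℝ} (C : Cls H S0 Q cb W) {D : ℝ} (hD0 : 0 ≤ D)
    (hD : DP H ρ D) {k P' : List Bool} (hk : k ∈ PN H ρ)
    (φ κp : List Bool → List Bool) (V : Finset (List Bool)) (hV : ∀ l ∈ V, Set1 H ρ Q k P' φ κp l) {r x : ℝ}
    (hr : 0 ≤ r) (hw : ∀ l ∈ V, x ≤ FF (κp l).dropLast ∧ FF (κp l).dropLast ≤ x + r) {κ : List Bool} (hκ : k <+: κ)
    (hVκ : ∀ l ∈ V, κ <+: l) : (V.card : ℝ) ≤ (4 * r + 1) * (cb κ * (9 * D + 1)) := by
  have h0 : 0 ≤ cb κ * (9 * D + 1) := mul_nonneg (C.pos κ) (by linarith)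
  have e1 : (V.card : ℝ) = ∑ k' ∈ V.image κp, ((V.filter (fun l => κp l = k')).card : ℝ) := by
    exact_mod_cast Finset.card_eq_sum_card_image κp V
  have e2 : ∀ k' ∈ V.image κp, ((V.filter (fun l => κp l = k')).card : ℝ) ≤ cb κ * (9 * D + 1) := by
    intro k' hk'
    obtain ⟨l0, hl0, rfl⟩ := Finset.mem_image.mp hk'
    refine pair_cbD hH hs C hD hk (hV l0 hl0).pn _ φ ?_ hκ (fun l hl => hVκ l (Finset.mem_filter.mp hl).1)
    intro l hl
    rw [Finset.mem_filter] at hl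
    have h := hV l hl.1
    refine ⟨h.cl, h.pre, ?_, h.s1, h.s2, h.ne, h.val⟩
    rw [← hl.2]; exact h.pre'
  have e3 : ((V.image κp).card : ℝ) ≤ 4 * r + 1 := by
    refine le_trans ?_ (hang_window (PN H ρ) P' hr x)
    have : V.image κp ⊆ ((PN H ρ).filter (Hg P')).filter fun k => x ≤ FF k.dropLast ∧ FF k.dropLast ≤ x + r := by
      intro k' hk'
      obtain ⟨l, hl, rfl⟩ := Finset.mem_image.mp hk'
      have h := hV l hl
      rw [Finset.mem_filter, Finset.mem_filter]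
      exact ⟨⟨h.pn, h.hg⟩, hw l hl⟩
    exact_mod_cast Finset.card_le_card this
  calc (V.card : ℝ) = ∑ k' ∈ V.image κp, ((V.filter (fun l => κp l = k')).card : ℝ) := e1
    _ ≤ ∑ k' ∈ V.image κp, cb κ * (9 * D + 1) := Finset.sum_le_sum e2
    _ = (V.image κp).card * (cb κ * (9 * D + 1)) := by rw [Finset.sum_const, nsmul_eq_mul]
    _ ≤ (4 * r + 1) * (cb κ * (9 * D + 1)) := mul_le_mul_of_nonneg_right e3 h0

open scoped Classical in
/-- **A fixed cone.** An antichain of words below `k` with partners in pieces hanging off `P'` far below `k`. -/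
theorem fixed_coneD {H ρ S0 : ℕ} (hH : 2 ≤ H) (hρ : 2 ≤ ρ) (hS0 : H ≤ S0) (hs : (10 : ℝ) ^ 20 * H ^ 20 ≤ 4 ^ ρ)
    {Q : List Bool → Prop} {cb : List Bool → ℝ} {W : ℝ} (C : Cls H S0 Q cb W) {D : ℝ} (hD0 : 0 ≤ D)
    (hD : DP H ρ D) {k P' : List Bool} (hk : k ∈ PN H ρ)
    (φ κp : List Bool → List Bool) (U : Finset (List Bool)) (hU : ∀ l ∈ U, Set1 H ρ Q k P' φ κp l)
    (hlev : ∀ l ∈ U, FF k + 2 * ρ ≤ FF (κp l).dropLast) (anti : ∀ l ∈ U, ∀ l2 ∈ U, l <+: l2 → l = l2)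
    (hW : 0 ≤ W) :
    (U.card : ℝ) ≤ (9 * D + 1) * ((8 * ρ + 3) * cb k + (4 * ρ + 1) * W) := by
  have hρ2 : (2 : ℝ) ≤ ρ := by exact_mod_cast hρ
  have hρ0 : (0 : ℝ) ≤ ρ := by linarith
  have hck := C.pos k
  have hD1 : 0 ≤ 9 * D + 1 := by linarith
  obtain ⟨gk, gk2⟩ := mem_PN.mp hk
  obtain ⟨y, hy⟩ : ∃ y : List Bool → ℝ, y = fun l => FF (κp l).dropLast := ⟨_, rfl⟩
  have dat : ∀ l ∈ U, Dat H ρ k (desc root P') l (φ l) (y l) := by
    intro l hl
    have h := hU l hl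
    obtain ⟨q1, q2⟩ := gap_hg h.hg h.pre' h.s2
    rw [hy]
    exact ⟨h.pre, h.s1, h.s2, h.val, q1, q2, hlev l hl⟩
  have inc : ∀ a ∈ U, ∀ b ∈ U, a ≠ b → Inc a b := fun a ha b hb hab =>
    ⟨fun h => hab (anti a ha b hb h), fun h => hab (anti b hb a ha h).symm⟩
  rcases U.eq_empty_or_nonempty with hE | hne
  · rw [hE]; simp only [Finset.card_empty, Nat.cast_zero]; positivity
  obtain ⟨N, hN, hNmax⟩ := Finset.exists_max_image U y hne
  set U0 := U.filter (fun l => κp l = κp N) with hU0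
  set U1 := U.filter (fun l => ¬ κp l = κp N) with hU1
  have c0 : (U0.card : ℝ) ≤ cb k * (9 * D + 1) := by
    refine pair_cbD hH hs C hD hk (hU N hN).pn _ φ ?_ (List.prefix_refl k) (fun l hl => (hU l (Finset.mem_filter.mp hl).1).pre)
    intro l hl
    rw [hU0, Finset.mem_filter] at hl
    have h := hU l hl.1
    refine ⟨h.cl, h.pre, ?_, h.s1, h.s2, h.ne, h.val⟩
    rw [← hl.2]; exact h.pre'
  have split0 : (U.card : ℝ) = U0.card + U1.card := by
    have := Finset.card_filter_add_card_filter_not (s := U) (fun l => κp l = κp N)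
    exact_mod_cast this.symm
  have hfin : ∀ a b : ℝ, a ≤ cb k * (9 * D + 1) → b ≤ (9 * D + 1) * ((8 * ρ + 2) * cb k + (4 * ρ + 1) * W) →
      a + b ≤ (9 * D + 1) * ((8 * ρ + 3) * cb k + (4 * ρ + 1) * W) := by
    intro a b ha hb
    have : (9 * D + 1) * ((8 * ρ + 3) * cb k + (4 * ρ + 1) * W) = cb k * (9 * D + 1) +
      (9 * D + 1) * ((8 * ρ + 2) * cb k + (4 * ρ + 1) * W) := by ring
    linarith
  rw [split0]
  apply hfin _ _ c0
  rcases U1.eq_empty_or_nonempty with hE | hne1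
  · rw [hE]; simp only [Finset.card_empty, Nat.cast_zero]; positivity
  obtain ⟨M, hM, hMmax⟩ := Finset.exists_max_image U1 y hne1
  have mem1 : ∀ l ∈ U1, l ∈ U ∧ κp l ≠ κp N := fun l hl => Finset.mem_filter.mp hl
  set U2 := U1.filter (fun l => y l + ρ ≤ y M) with hU2
  have cM : ((U1.filter (fun l => ¬ y l + ρ ≤ y M)).card : ℝ) ≤ (4 * ρ + 1) * (cb k * (9 * D + 1)) := by
    refine window_cbD hH hs C hD0 hD hk φ κp _ (fun l hl => hU l (mem1 l (Finset.mem_filter.mp hl).1).1) hρ0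
      (x := y M - ρ) ?_ (List.prefix_refl k) (fun l hl => (hU l (mem1 l (Finset.mem_filter.mp hl).1).1).pre)
    intro l hl
    rw [Finset.mem_filter, not_le] at hl
    have h1 := hMmax l hl.1
    have h2 := hl.2
    rw [hy] at h1 h2 ⊢
    simp only at h1 h2 ⊢
    constructor <;> linarith
  have split1 : (U1.card : ℝ) = U2.card + (U1.filter (fun l => ¬ y l + ρ ≤ y M)).card := by
    have := Finset.card_filter_add_card_filter_not (s := U1) (fun l => y l + ρ ≤ y M)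
    exact_mod_cast this.symm
  have hfin1 : ∀ a b : ℝ, a ≤ (9 * D + 1) * ((4 * ρ + 1) * cb k + (4 * ρ + 1) * W) →
      b ≤ (4 * ρ + 1) * (cb k * (9 * D + 1)) → a + b ≤ (9 * D + 1) * ((8 * ρ + 2) * cb k + (4 * ρ + 1) * W) := by
    intro a b ha hb
    have : (9 * D + 1) * ((8 * ρ + 2) * cb k + (4 * ρ + 1) * W) =
      (9 * D + 1) * ((4 * ρ + 1) * cb k + (4 * ρ + 1) * W) + (4 * ρ + 1) * (cb k * (9 * D + 1)) := by ring
    linarith
  rw [split1]
  apply hfin1 _ _ _ cM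
  rcases U2.eq_empty_or_nonempty with hE | hne2
  · rw [hE]; simp only [Finset.card_empty, Nat.cast_zero]; positivity
  obtain ⟨J, hJ, hJmax⟩ := Finset.exists_max_image U2 y hne2
  have mem2 : ∀ l ∈ U2, l ∈ U1 ∧ y l + ρ ≤ y M := fun l hl => Finset.mem_filter.mp hl
  set U3 := U2.filter (fun l => y l + ρ ≤ y J) with hU3
  have cJ : ((U2.filter (fun l => ¬ y l + ρ ≤ y J)).card : ℝ) ≤ (4 * ρ + 1) * (cb k * (9 * D + 1)) := by
    refine window_cbD hH hs C hD0 hD hk φ κp _ (fun l hl => hU l (mem1 l (mem2 l (Finset.mem_filter.mp hl).1).1).1) hρ0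
      (x := y J - ρ) ?_ (List.prefix_refl k)
      (fun l hl => (hU l (mem1 l (mem2 l (Finset.mem_filter.mp hl).1).1).1).pre)
    intro l hl
    rw [Finset.mem_filter, not_le] at hl
    have h1 := hJmax l hl.1
    have h2 := hl.2
    rw [hy] at h1 h2 ⊢
    simp only at h1 h2 ⊢
    constructor <;> linarith
  have split2 : (U2.card : ℝ) = U3.card + (U2.filter (fun l => ¬ y l + ρ ≤ y J)).card := by
    have := Finset.card_filter_add_card_filter_not (s := U2) (fun l => y l + ρ ≤ y J)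
    exact_mod_cast this.symm
  rw [split2]
  have hfin2 : ∀ a b : ℝ, a ≤ (4 * ρ + 1) * (9 * D + 1) * W →
      b ≤ (4 * ρ + 1) * (cb k * (9 * D + 1)) → a + b ≤ (9 * D + 1) * ((4 * ρ + 1) * cb k + (4 * ρ + 1) * W) := by
    intro a b ha hb
    have : (9 * D + 1) * ((4 * ρ + 1) * cb k + (4 * ρ + 1) * W) =
      (4 * ρ + 1) * (9 * D + 1) * W + (4 * ρ + 1) * (cb k * (9 * D + 1)) := by ring
    linarith
  apply hfin2 _ _ _ cJ
  -- the main part
  have mJ := mem2 J hJ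
  have mJ1 := mem1 J mJ.1
  have mM1 := mem1 M hM
  have yNM : y M ≤ y N := hNmax M mM1.1
  have hneMN : φ M ≠ φ N := by
    intro h
    apply mM1.2
    exact PN_unique (hU M mM1.1).pn (hU N hN).pn (hU M mM1.1).pre' (by rw [h]; exact (hU N hN).pre')
  have mem3 : ∀ l ∈ U3, l ∈ U ∧ κp l ≠ κp N ∧ y l + ρ ≤ y J ∧ l ≠ N := by
    intro l hl
    have h1 := Finset.mem_filter.mp hl
    have h2 := mem1 l (mem2 l h1.1).1
    refine ⟨h2.1, h2.2, h1.2, ?_⟩
    rintro rfl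
    exact h2.2 rfl
  have hch : ∀ l ∈ U3, ∃ κ : List Bool, κ <+: l ∧ k <+: κ ∧ Hg N κ ∧ FF κ.dropLast - ρ / 2 ≤ y l ∧
      y l ≤ FF κ.dropLast - ρ / 2 + ρ := by
    intro l hl
    obtain ⟨h1, h2, h3, h4⟩ := mem3 l hl
    have iNl := inc N hN l h1 h4.symm
    obtain ⟨m, b, g1, g2⟩ := diverge l N iNl.2 iNl.1
    have hlJ : l ≠ J := by
      rintro rfl
      linarith
    have hJM : J ≠ M := by
      rintro rfl
      linarith [mJ.2]
    have hJN : J ≠ N := by
      rintro rfl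
      exact mJ1.2 rfl
    have hMN : M ≠ N := by
      rintro rfl
      exact mM1.2 rfl
    have hL := level (by omega) hs gk2.1.2 (dat l h1) (dat J mJ1.1) (dat M mM1.1) (dat N hN) h3 mJ.2
      (mJ.2.trans yNM) hneMN (inc l h1 J mJ1.1 hlJ) (inc J mJ1.1 N hN hJN) iNl (inc J mJ1.1 M mM1.1 hJM)
      (inc M mM1.1 N hN hMN) g1 g2
    refine ⟨m ++ [b], g1, ?_, ⟨m, b, rfl, g2⟩, ?_⟩
    · exact (pre_meet g1 g2 (hU l h1).pre (hU N hN).pre).trans (List.prefix_append _ _)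
    · rw [List.dropLast_concat]
      constructor <;> linarith [hL.1, hL.2]
  choose! κ hκ1 hκ2 hκ3 hκ4 hκ5 using hch
  have e1 : (U3.card : ℝ) = ∑ c ∈ U3.image κ, ((U3.filter (fun l => κ l = c)).card : ℝ) := by
    exact_mod_cast Finset.card_eq_sum_card_image κ U3
  have e2 : ∀ c ∈ U3.image κ, ((U3.filter (fun l => κ l = c)).card : ℝ) ≤ (4 * ρ + 1) * (cb c * (9 * D + 1)) := by
    intro c hc
    obtain ⟨l0, hl0, rfl⟩ := Finset.mem_image.mp hc
    refine window_cbD hH hs C hD0 hD hk φ κp _ (fun l hl => hU l (mem3 l (Finset.mem_filter.mp hl).1).1) hρ0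
      (x := FF (κ l0).dropLast - ρ / 2) ?_ (hκ2 l0 hl0) ?_
    · intro l hl
      rw [Finset.mem_filter] at hl
      have q1 := hκ4 l hl.1
      have q2 := hκ5 l hl.1
      rw [hl.2] at q1 q2
      rw [hy] at q1 q2
      exact ⟨q1, q2⟩
    · intro l hl
      rw [Finset.mem_filter] at hl
      rw [← hl.2]; exact hκ1 l hl.1
  have e3 := C.hang N ((hU N hN).s1.trans hS0) (U3.image κ) (by
    intro c hc
    obtain ⟨l, hl, rfl⟩ := Finset.mem_image.mp hc
    exact ⟨hκ3 l hl, l, (hU l (mem3 l hl).1).cl, hκ1 l hl⟩)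
  calc (U3.card : ℝ) = ∑ c ∈ U3.image κ, ((U3.filter (fun l => κ l = c)).card : ℝ) := e1
    _ ≤ ∑ c ∈ U3.image κ, (4 * ρ + 1) * (cb c * (9 * D + 1)) := Finset.sum_le_sum e2
    _ = (4 * ρ + 1) * (9 * D + 1) * ∑ c ∈ U3.image κ, cb c := by
        rw [Finset.mul_sum]
        exact Finset.sum_congr rfl fun c _ => by ring
    _ ≤ (4 * ρ + 1) * (9 * D + 1) * W := mul_le_mul_of_nonneg_left e3 (by positivity)

open scoped Classical in
/-- **Two paths.** -/
theorem two_pathsD {H ρ S0 : ℕ} (hH : 2 ≤ H) (hρ : 2 ≤ ρ) (hS0 : H ≤ S0)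
    (hs : (10 : ℝ) ^ 20 * ((2 * H : ℕ) : ℝ) ^ 20 ≤ 4 ^ ρ)
    {Q : List Bool → Prop} {cb : List Bool → ℝ} {W : ℝ} (C : Cls H S0 Q cb W) {D : ℝ} (hD0 : 0 ≤ D)
    (hD : DP H ρ D) {L : ℝ} (hL : ChL H L)
    {P P' : List Bool} (hP : sz P ≤ S0) (φ κ κp : List Bool → List Bool) (S : Finset (List Bool))
    (hS : ∀ l ∈ S, Set2 H ρ Q P P' φ κ κp l) :
    (S.card : ℝ) ≤ (9 * D + 1) * W * ((28 * ρ + 5) + (16 * ρ + 4) * (L + 1) * (12 * ρ + 4)) := by
  have hs1 := hs_down hs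
  have hρ2 : (2 : ℝ) ≤ ρ := by exact_mod_cast hρ
  have hρ0 : (0 : ℝ) ≤ ρ := by linarith
  have hD1 : 0 ≤ 9 * D + 1 := by linarith
  have hL0 : 0 ≤ L := by
    have := hL ∅ (by simp) (by simp)
    simpa using this
  have hW : 0 ≤ W := by
    have := C.hang P hP ∅ (by simp)
    simpa using this
  obtain ⟨y, hy⟩ : ∃ y : List Bool → ℝ, y = fun l => FF (κp l).dropLast := ⟨_, rfl⟩
  -- the pieces in the first coordinate
  have hang : ∀ A : Finset (List Bool), A ⊆ S.image κ → ∑ k ∈ A, cb k ≤ W := by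
    intro A hA
    apply C.hang P hP
    intro k hk
    obtain ⟨l, hl, rfl⟩ := Finset.mem_image.mp (hA hk)
    have h := hS l hl
    exact ⟨h.hg0, l, h.cl, h.pre⟩
  have hcb1 : ∀ k ∈ S.image κ, cb k ≤ W := by
    intro k hk
    have := hang {k} (Finset.singleton_subset_iff.mpr hk)
    simpa using this
  -- the three parts
  set SA := S.filter (fun l => y l ≤ FF (κ l) - ρ) with hSA
  set SR := S.filter (fun l => ¬ y l ≤ FF (κ l) - ρ) with hSR
  set SC := SR.filter (fun l => FF (κ l) + 2 * ρ ≤ y l) with hSC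
  set SB := SR.filter (fun l => ¬ FF (κ l) + 2 * ρ ≤ y l) with hSB
  have spl1 : (S.card : ℝ) = SA.card + SR.card := by
    have := Finset.card_filter_add_card_filter_not (s := S) (fun l => y l ≤ FF (κ l) - ρ)
    exact_mod_cast this.symm
  have spl2 : (SR.card : ℝ) = SC.card + SB.card := by
    have h : SC.card + SB.card = SR.card :=
      Finset.card_filter_add_card_filter_not (s := SR) (fun l => FF (κ l) + 2 * ρ ≤ y l)
    rw [← h]; push_cast; rfl
  have mA : ∀ l ∈ SA, l ∈ S ∧ y l ≤ FF (κ l) - ρ := fun l hl => Finset.mem_filter.mp hl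
  have mR : ∀ l ∈ SR, l ∈ S ∧ ¬ y l ≤ FF (κ l) - ρ := fun l hl => Finset.mem_filter.mp hl
  have mC : ∀ l ∈ SC, l ∈ S ∧ FF (κ l) + 2 * ρ ≤ y l := fun l hl =>
    ⟨(mR l (Finset.mem_filter.mp hl).1).1, (Finset.mem_filter.mp hl).2⟩
  have mB : ∀ l ∈ SB, l ∈ S ∧ FF (κ l) - ρ < y l ∧ y l < FF (κ l) + 2 * ρ := fun l hl =>
    ⟨(mR l (Finset.mem_filter.mp hl).1).1, not_le.mp (mR l (Finset.mem_filter.mp hl).1).2,
      not_le.mp (Finset.mem_filter.mp hl).2⟩
  -- summation over the pieces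
  have sumk : ∀ (V : Finset (List Bool)) (c : ℝ), V ⊆ S → 0 ≤ c →
      (∀ k ∈ V.image κ, ((V.filter (fun l => κ l = k)).card : ℝ) ≤ c * (cb k * (9 * D + 1))) →
      (V.card : ℝ) ≤ c * (9 * D + 1) * W := by
    intro V c hV hc h
    have e1 : (V.card : ℝ) = ∑ k ∈ V.image κ, ((V.filter (fun l => κ l = k)).card : ℝ) := by
      exact_mod_cast Finset.card_eq_sum_card_image κ V
    calc (V.card : ℝ) = ∑ k ∈ V.image κ, ((V.filter (fun l => κ l = k)).card : ℝ) := e1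
      _ ≤ ∑ k ∈ V.image κ, c * (cb k * (9 * D + 1)) := Finset.sum_le_sum h
      _ = c * (9 * D + 1) * ∑ k ∈ V.image κ, cb k := by
          rw [Finset.mul_sum]
          exact Finset.sum_congr rfl fun k _ => by ring
      _ ≤ c * (9 * D + 1) * W := mul_le_mul_of_nonneg_left (hang _ (Finset.image_subset_image hV)) (by positivity)
  -- part A
  have cA : (SA.card : ℝ) ≤ (16 * ρ + 4) * (9 * D + 1) * W := by
    refine sumk SA _ (Finset.filter_subset _ _) (by positivity) ?_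
    intro k hk
    obtain ⟨l0, hl0, hk0⟩ := Finset.mem_image.mp hk
    have hkPN : k ∈ PN H ρ := by rw [← hk0]; exact (hS l0 (mA l0 hl0).1).pn0
    have hcbk := C.pos k
    set V := SA.filter (fun l => κ l = k) with hV
    have hVm : ∀ l ∈ V, Set1 H ρ Q k P' φ κp l ∧ FF (κp l).dropLast ≤ FF k - ρ := by
      intro l hl
      have h1 := Finset.mem_filter.mp hl
      have h2 := mA l h1.1
      have h3 := (hS l h2.1).to1
      have h4 := h2.2
      rw [h1.2] at h3 h4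
      rw [hy] at h4
      exact ⟨h3, h4⟩
    rcases windows (fun l => FF (κp l).dropLast) hρ0 4 V with ⟨o, ho, hch⟩ | ⟨T, hT, hcov⟩
    · exact (no_chain_cone (by omega) hs o (fun t => hVm _ (ho t)) hch).elim
    · have := cover_windows V (fun l => FF (κp l).dropLast) T 4 hT (ρ := ρ) (B := (4 * ρ + 1) * (cb k * (9 * D + 1)))
        (by positivity) hcov (fun μ => by
          refine window_cbD hH hs1 C hD0 hD hkPN φ κp _ (fun l hl => (hVm l (Finset.mem_filter.mp hl).1).1) hρ0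
            (x := μ) (fun l hl => (Finset.mem_filter.mp hl).2) (List.prefix_refl k)
            (fun l hl => (hVm l (Finset.mem_filter.mp hl).1).1.pre))
      refine this.trans (le_of_eq ?_)
      push_cast
      ring
  -- part B
  have cB : (SB.card : ℝ) ≤ (12 * ρ + 1) * (9 * D + 1) * W := by
    refine sumk SB _ ((Finset.filter_subset _ _).trans (Finset.filter_subset _ _)) (by positivity) ?_
    intro k hk
    obtain ⟨l0, hl0, hk0⟩ := Finset.mem_image.mp hk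
    have hkPN : k ∈ PN H ρ := by rw [← hk0]; exact (hS l0 (mB l0 hl0).1).pn0
    have hVm : ∀ l ∈ SB.filter (fun l => κ l = k), Set1 H ρ Q k P' φ κp l ∧ FF k - ρ ≤ FF (κp l).dropLast ∧
        FF (κp l).dropLast ≤ FF k - ρ + 3 * ρ := by
      intro l hl
      have h1 := Finset.mem_filter.mp hl
      have h2 := mB l h1.1
      have h3 := (hS l h2.1).to1
      have h4 := h2.2
      rw [h1.2] at h3 h4
      rw [hy] at h4
      exact ⟨h3, h4.1.le, by linarith [h4.2]⟩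
    have := window_cbD hH hs1 C hD0 hD hkPN φ κp _ (fun l hl => (hVm l hl).1) (r := 3 * ρ) (by positivity)
      (x := FF k - ρ) (fun l hl => (hVm l hl).2) (List.prefix_refl k) (fun l hl => (hVm l hl).1.pre)
    refine this.trans (le_of_eq ?_)
    ring
  -- part C
  have cC : (SC.card : ℝ) ≤ (16 * ρ + 4) * ((L + 1) * ((9 * D + 1) * ((12 * ρ + 4) * W))) := by
    rcases windows (fun l => FF (κ l).dropLast) hρ0 4 SC with ⟨o, ho, hch⟩ | ⟨T, hT, hcov⟩
    · refine (no_chain_path (by omega) (by omega) hs1 (P := P) (P' := P') (Q := Q) (φ := φ) (κ := κ) (κp := κp) o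
        (fun t => ?_) hch).elim
      have h1 := mC _ (ho t)
      refine ⟨hS _ h1.1, ?_⟩
      have := h1.2
      rw [hy] at this
      exact this
    · have := cover_windows SC (fun l => FF (κ l).dropLast) T 4 hT (ρ := ρ)
        (B := (4 * ρ + 1) * ((L + 1) * ((9 * D + 1) * ((12 * ρ + 4) * W))))
        (by positivity) hcov (fun μ => by
          set V := SC.filter (fun l => μ ≤ FF (κ l).dropLast ∧ FF (κ l).dropLast ≤ μ + ρ) with hV
          have hVm : ∀ l ∈ V, l ∈ SC ∧ μ ≤ FF (κ l).dropLast ∧ FF (κ l).dropLast ≤ μ + ρ :=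
            fun l hl => Finset.mem_filter.mp hl
          have e1 : (V.card : ℝ) = ∑ k ∈ V.image κ, ((V.filter (fun l => κ l = k)).card : ℝ) := by
            exact_mod_cast Finset.card_eq_sum_card_image κ V
          have e2 : ∀ k ∈ V.image κ, ((V.filter (fun l => κ l = k)).card : ℝ) ≤
              (L + 1) * ((9 * D + 1) * ((12 * ρ + 4) * W)) := by
            intro k hk
            obtain ⟨l0, hl0, hk0⟩ := Finset.mem_image.mp hk
            have hl0S := (mC l0 (hVm l0 hl0).1).1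
            have hkPN : k ∈ PN H ρ := by rw [← hk0]; exact (hS l0 hl0S).pn0
            have hkI : k ∈ S.image κ := by rw [← hk0]; exact Finset.mem_image_of_mem κ hl0S
            have hV2 : ∀ l ∈ V.filter (fun l => κ l = k), Set1 H ρ Q k P' φ κp l ∧
                FF k + 2 * ρ ≤ FF (κp l).dropLast := by
              intro l hl
              have h1 := Finset.mem_filter.mp hl
              have h2 := mC l (hVm l h1.1).1
              have h3 := (hS l h2.1).to1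
              have h4 := h2.2
              rw [h1.2] at h3 h4
              rw [hy] at h4
              exact ⟨h3, h4⟩
            refine antichains hL _ (fun l hl => ⟨⟨φ l, (hV2 l hl).1.ne, (hV2 l hl).1.val⟩, (hV2 l hl).1.s1⟩) ?_
            intro V' hV' hanti
            have := fixed_coneD hH hρ hS0 hs1 C hD0 hD hkPN φ κp V' (fun l hl => (hV2 l (hV' hl)).1)
              (fun l hl => (hV2 l (hV' hl)).2) hanti hW
            refine this.trans (mul_le_mul_of_nonneg_left ?_ hD1)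
            have h5 := hcb1 k hkI
            have h6 : (8 * (ρ : ℝ) + 3) * cb k ≤ (8 * ρ + 3) * W := mul_le_mul_of_nonneg_left h5 (by positivity)
            linarith
          have e3 : ((V.image κ).card : ℝ) ≤ 4 * ρ + 1 := by
            refine le_trans ?_ (hang_window (PN H ρ) P hρ0 μ)
            have : V.image κ ⊆ ((PN H ρ).filter (Hg P)).filter fun k => μ ≤ FF k.dropLast ∧ FF k.dropLast ≤ μ + ρ := by
              intro k hk
              obtain ⟨l, hl, rfl⟩ := Finset.mem_image.mp hk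
              have h := hS l (mC l (hVm l hl).1).1
              rw [Finset.mem_filter, Finset.mem_filter]
              exact ⟨⟨h.pn0, h.hg0⟩, (hVm l hl).2⟩
            exact_mod_cast Finset.card_le_card this
          have hB0 : 0 ≤ (L + 1) * ((9 * D + 1) * ((12 * ρ + 4) * W)) := by positivity
          calc (V.card : ℝ) = ∑ k ∈ V.image κ, ((V.filter (fun l => κ l = k)).card : ℝ) := e1
            _ ≤ ∑ k ∈ V.image κ, (L + 1) * ((9 * D + 1) * ((12 * ρ + 4) * W)) := Finset.sum_le_sum e2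
            _ = (V.image κ).card * ((L + 1) * ((9 * D + 1) * ((12 * ρ + 4) * W))) := by
                rw [Finset.sum_const, nsmul_eq_mul]
            _ ≤ _ := mul_le_mul_of_nonneg_right e3 hB0)
      refine this.trans (le_of_eq ?_)
      push_cast
      ring
  rw [spl1, spl2]
  have : (9 * D + 1) * W * ((28 * ρ + 5) + (16 * ρ + 4) * (L + 1) * (12 * ρ + 4)) =
      (16 * ρ + 4) * (9 * D + 1) * W + ((16 * ρ + 4) * ((L + 1) * ((9 * D + 1) * ((12 * ρ + 4) * W))) +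
        (12 * ρ + 1) * (9 * D + 1) * W) := by ring
  rw [this]
  linarith

open scoped Classical in
/-- **The number of exceptional words of a class.** -/
theorem count_classD {H ρ S0 : ℕ} (hH : 2 ≤ H) (hρ : 2 ≤ ρ) (hS0 : 2 * ρ * (H + 2) ≤ S0)
    (hs : (10 : ℝ) ^ 20 * ((2 * H : ℕ) : ℝ) ^ 20 ≤ 4 ^ ρ)
    {Q : List Bool → Prop} {cb : List Bool → ℝ} {W : ℝ} (C : Cls H S0 Q cb W) {D : ℝ} (hD0 : 0 ≤ D)
    (hD : DP H ρ D) {L : ℝ} (hL : ChL H L)
    (Z : Finset (List Bool)) (hZ : ∀ l ∈ Z, Q l ∧ sz l ≤ H ∧ ∃ l', sz l' ≤ H ∧ l' ≠ l ∧ FF l' = FF l) :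
    (Z.card : ℝ) ≤ (19 * ρ ^ 2 + 6) ^ 2 * ((9 * D + 1) * W * ((28 * ρ + 5) + (16 * ρ + 4) * (L + 1) * (12 * ρ + 4))) +
      2 * ((10 * ρ ^ 2 + 4) * L) := by
  have hs1 := hs_down hs
  have hL0 : 0 ≤ L := by
    have := hL ∅ (by simp) (by simp)
    simpa using this
  have hW : 0 ≤ W := by
    have := C.hang [] (by
      have : sz ([] : List Bool) = 2 := rfl
      rw [this]; nlinarith) ∅ (by simp)
    simpa using this
  set Bd := BW H ρ with hBd
  set Z0 := Z.filter (fun l => l ∈ Bd) with hZ0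
  set ZR := Z.filter (fun l => ¬ l ∈ Bd) with hZR
  set Z1 := ZR.filter (fun l => ∃ l', sz l' ≤ H ∧ l' ∉ Bd ∧ l' ≠ l ∧ FF l' = FF l) with hZ1
  set Z2 := ZR.filter (fun l => ¬ ∃ l', sz l' ≤ H ∧ l' ∉ Bd ∧ l' ≠ l ∧ FF l' = FF l) with hZ2
  have spl1 : (Z.card : ℝ) = Z0.card + ZR.card := by
    have h : Z0.card + ZR.card = Z.card := Finset.card_filter_add_card_filter_not (s := Z) (fun l => l ∈ Bd)
    rw [← h]; push_cast; rfl
  have spl2 : (ZR.card : ℝ) = Z1.card + Z2.card := by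
    have h : Z1.card + Z2.card = ZR.card := Finset.card_filter_add_card_filter_not (s := ZR)
      (fun l => ∃ l', sz l' ≤ H ∧ l' ∉ Bd ∧ l' ≠ l ∧ FF l' = FF l)
    rw [← h]; push_cast; rfl
  have hBx := BWx_card hρ (by omega) hs1 hL
  have c0 : (Z0.card : ℝ) ≤ (10 * ρ ^ 2 + 4) * L := by
    refine le_trans ?_ hBx
    have : Z0 ⊆ (BW H ρ).filter Exw := by
      intro l hl
      have h := Finset.mem_filter.mp hl
      obtain ⟨-, -, l', -, h2, h3⟩ := hZ l h.1
      exact Finset.mem_filter.mpr ⟨h.2, l', h2, h3⟩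
    exact_mod_cast Finset.card_le_card this
  have mR : ∀ l ∈ ZR, l ∈ Z ∧ l ∉ Bd := fun l hl => Finset.mem_filter.mp hl
  have m2 : ∀ l ∈ Z2, l ∈ ZR ∧ ¬ ∃ l', sz l' ≤ H ∧ l' ∉ Bd ∧ l' ≠ l ∧ FF l' = FF l :=
    fun l hl => Finset.mem_filter.mp hl
  have c2 : (Z2.card : ℝ) ≤ (10 * ρ ^ 2 + 4) * L := by
    refine le_trans ?_ hBx
    have hch : ∀ l ∈ Z2, ∃ l', l' ∈ Bd ∧ l' ≠ l ∧ FF l' = FF l := by
      intro l hl
      obtain ⟨h1, h2⟩ := m2 l hl
      obtain ⟨-, -, l', h3, h4, h5⟩ := hZ l (mR l h1).1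
      refine ⟨l', ?_, h4, h5⟩
      by_contra hb
      exact h2 ⟨l', h3, hb, h4, h5⟩
    choose! ψ hψ1 hψ2 hψ3 using hch
    have : Z2.card ≤ ((BW H ρ).filter Exw).card := by
      apply Finset.card_le_card_of_injOn ψ
      · intro l hl
        exact Finset.mem_filter.mpr ⟨hψ1 l hl, l, (hψ2 l hl).symm, (hψ3 l hl).symm⟩
      · intro a ha b hb hab
        by_contra hne
        have hfa := hψ3 a ha
        have hfb := hψ3 b hb
        have ha' := m2 a ha
        have hb' := m2 b hb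
        apply ha'.2
        exact ⟨b, (hZ b (mR b hb'.1).1).2.1, (mR b hb'.1).2, Ne.symm hne, by rw [← hfb, ← hab, hfa]⟩
    exact_mod_cast this
  -- the main part
  have m1 : ∀ l ∈ Z1, (Q l ∧ sz l ≤ H) ∧ l ∉ Bd ∧ ∃ l', sz l' ≤ H ∧ l' ∉ Bd ∧ l' ≠ l ∧ FF l' = FF l := by
    intro l hl
    have h := Finset.mem_filter.mp hl
    have h2 := mR l h.1
    exact ⟨⟨(hZ l h2.1).1, (hZ l h2.1).2.1⟩, h2.2, h.2⟩
  have hch : ∀ l ∈ Z1, ∃ l', sz l' ≤ H ∧ l' ∉ Bd ∧ l' ≠ l ∧ FF l' = FF l := fun l hl => (m1 l hl).2.2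
  choose! φ hφ1 hφ2 hφ3 hφ4 using hch
  have hK : ∀ l, sz l ≤ H → l ∉ Bd → ∃ k, k ∈ PN H ρ ∧ k <+: l := by
    intro l h1 h2
    by_contra hno
    exact h2 (mem_BW.mpr ⟨h1, hno⟩)
  choose! K hK1 hK2 using hK
  have hPth : ∀ k, k ∈ PN H ρ → ∃ P ∈ Paths H ρ, Hg P k := fun k hk => PN_cover hρ (by omega) hs1 hk
  choose! Pt hPt1 hPt2 using hPth
  have f1 : ∀ l ∈ Z1, K l ∈ PN H ρ ∧ K l <+: l := fun l hl => ⟨hK1 l (m1 l hl).1.2 (m1 l hl).2.1, hK2 l (m1 l hl).1.2 (m1 l hl).2.1⟩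
  have f2 : ∀ l ∈ Z1, K (φ l) ∈ PN H ρ ∧ K (φ l) <+: φ l := fun l hl =>
    ⟨hK1 _ (hφ1 l hl) (hφ2 l hl), hK2 _ (hφ1 l hl) (hφ2 l hl)⟩
  obtain ⟨B, hB⟩ : ∃ B : ℝ, B = (9 * D + 1) * W * ((28 * ρ + 5) + (16 * ρ + 4) * (L + 1) * (12 * ρ + 4)) := ⟨_, rfl⟩
  have hB0 : 0 ≤ B := by rw [hB]; positivity
  rw [← hB]
  have c1 : (Z1.card : ℝ) ≤ (19 * ρ ^ 2 + 6) ^ 2 * B := by
    have e1 : (Z1.card : ℝ) = ∑ pp ∈ Paths H ρ ×ˢ Paths H ρ,
        ((Z1.filter (fun l => (Pt (K l), Pt (K (φ l))) = pp)).card : ℝ) := by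
      exact_mod_cast Finset.card_eq_sum_card_fiberwise (fun l hl => by
        rw [Finset.coe_product, Set.mem_prod]
        exact ⟨hPt1 _ (f1 l hl).1, hPt1 _ (f2 l hl).1⟩)
    have e2 : ∀ pp ∈ Paths H ρ ×ˢ Paths H ρ,
        ((Z1.filter (fun l => (Pt (K l), Pt (K (φ l))) = pp)).card : ℝ) ≤ B := by
      rintro ⟨P, P'⟩ hpp
      rw [Finset.mem_product] at hpp
      rw [hB]
      refine two_pathsD hH hρ (by nlinarith) hs C hD0 hD hL ((Paths_sz (by omega) hH hpp.1).trans hS0) φ K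
        (fun l => K (φ l)) (P := P) (P' := P') _ ?_
      intro l hl
      have h := Finset.mem_filter.mp hl
      have ep : Pt (K l) = P := congrArg Prod.fst h.2
      have ep' : Pt (K (φ l)) = P' := congrArg Prod.snd h.2
      refine ⟨(m1 l h.1).1.1, (f1 l h.1).1, (f1 l h.1).2, ?_, (m1 l h.1).1.2, hφ1 l h.1, hφ3 l h.1, hφ4 l h.1,
        (f2 l h.1).1, (f2 l h.1).2, ?_⟩
      · rw [← ep]; exact hPt2 _ (f1 l h.1).1
      · rw [← ep']; exact hPt2 _ (f2 l h.1).1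
    calc (Z1.card : ℝ) = _ := e1
      _ ≤ ∑ pp ∈ Paths H ρ ×ˢ Paths H ρ, B := Finset.sum_le_sum e2
      _ = ((Paths H ρ).card : ℝ) ^ 2 * B := by
          rw [Finset.sum_const, nsmul_eq_mul, Finset.card_product]
          push_cast; ring
      _ ≤ _ := by
          apply mul_le_mul_of_nonneg_right _ hB0
          have h2 : ((Paths H ρ).card : ℝ) ≤ 19 * ρ ^ 2 + 6 := by exact_mod_cast Paths_card hρ (by omega) hs1
          exact pow_le_pow_left₀ (by positivity) h2 2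
  rw [spl1, spl2]
  linarith

end

end Pool.Agent.N576.MX3
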