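import Mathlib
import Pool.Agent.N576.MX3.P1
import Pool.Agent.N576.MX3.E
import Pool.Agent.N576.MX2.E
import Pool.Agent.N576.MX.K6

set_option autoImplicit false

/-!
# The number of exceptional words is a power of the logarithm
-/

namespace Pool.Agent.N576.MX3

open Pool.Agent.H499R2 Pool.Agent.TH880.MK Pool.Agent.N576.MK Pool.Agent.N576.MX2
open Pool.Agent.N576.MX (lm_double total_le Exc)

noncomputable section

/-- **The number of exceptional words.** -/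
def FINALY : Prop := ∃ (C : ℝ) (K : ℕ), 0 < C ∧ ∀ (H : ℕ) (Z : Finset (List Bool)), 1 ≤ H →
  (∀ l ∈ Z, Exc H l) → (Z.card : ℝ) ≤ C * lm H ^ K

/-- the numerical bound -/
lemma num_le {ρ R D W L : ℝ} (hρ0 : 0 ≤ ρ) (hρ : ρ ≤ R) (hR : 1 ≤ R) (hD : 0 ≤ D) (hW : 0 ≤ W) (hL : 0 ≤ L) :
    (19 * ρ ^ 2 + 6) ^ 2 * ((9 * D + 1) * W * ((28 * ρ + 5) + (16 * ρ + 4) * (L + 1) * (12 * ρ + 4))) +
      2 * ((10 * ρ ^ 2 + 4) * L) ≤ 220653 * R ^ 6 * (9 * D + 1) * (W + 1) * (L + 1) := by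
  have hρ2 : ρ ^ 2 ≤ R ^ 2 := pow_le_pow_left₀ hρ0 hρ 2
  have hR0 : 0 ≤ R := by linarith
  have hR2 : R ≤ R ^ 2 := by nlinarith
  have hR21 : 1 ≤ R ^ 2 := by nlinarith
  have a1 : (19 * ρ ^ 2 + 6) ^ 2 ≤ (25 * R ^ 2) ^ 2 := pow_le_pow_left₀ (by positivity) (by linarith) 2
  have a2 : (28 * ρ + 5) + (16 * ρ + 4) * (L + 1) * (12 * ρ + 4) ≤ 353 * R ^ 2 * (L + 1) := by
    have e1 : (16 * ρ + 4) * (L + 1) * (12 * ρ + 4) ≤ (20 * R) * (L + 1) * (16 * R) := by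
      apply mul_le_mul _ (by linarith) (by positivity) (by positivity)
      exact mul_le_mul_of_nonneg_right (by linarith) (by linarith)
    have e2 : 28 * ρ + 5 ≤ 33 * R ^ 2 := by linarith
    have e3 : 33 * R ^ 2 ≤ 33 * R ^ 2 * (L + 1) := le_mul_of_one_le_right (by positivity) (by linarith)
    nlinarith
  have hDW : 0 ≤ (9 * D + 1) * W := by positivity
  have hX : 0 ≤ (9 * D + 1) * (W + 1) * (L + 1) := by positivity
  have a3 : (19 * ρ ^ 2 + 6) ^ 2 * ((9 * D + 1) * W * ((28 * ρ + 5) + (16 * ρ + 4) * (L + 1) * (12 * ρ + 4))) ≤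
      (25 * R ^ 2) ^ 2 * ((9 * D + 1) * W * (353 * R ^ 2 * (L + 1))) := by
    apply mul_le_mul a1 _ (by positivity) (by positivity)
    exact mul_le_mul_of_nonneg_left a2 hDW
  have a4 : (25 * R ^ 2) ^ 2 * ((9 * D + 1) * W * (353 * R ^ 2 * (L + 1))) ≤
      220625 * R ^ 6 * ((9 * D + 1) * (W + 1) * (L + 1)) := by
    have e1 : (25 * R ^ 2) ^ 2 * ((9 * D + 1) * W * (353 * R ^ 2 * (L + 1))) =
        220625 * R ^ 6 * ((9 * D + 1) * W * (L + 1)) := by ring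
    rw [e1]
    apply mul_le_mul_of_nonneg_left _ (by positivity)
    apply mul_le_mul_of_nonneg_right _ (by linarith)
    exact mul_le_mul_of_nonneg_left (by linarith) (by positivity)
  have a5 : 2 * ((10 * ρ ^ 2 + 4) * L) ≤ 28 * R ^ 6 * ((9 * D + 1) * (W + 1) * (L + 1)) := by
    have e1 : (10 * ρ ^ 2 + 4) * L ≤ (14 * R ^ 2) * L := mul_le_mul_of_nonneg_right (by linarith) hL
    have e2 : R ^ 2 ≤ R ^ 6 := pow_le_pow_right₀ hR (by norm_num)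
    have e3 : L ≤ (9 * D + 1) * (W + 1) * (L + 1) := by
      have h1 : (1 : ℝ) ≤ (9 * D + 1) * (W + 1) := by nlinarith [mul_nonneg hD hW]
      have h2 : (1 : ℝ) * (L + 1) ≤ (9 * D + 1) * (W + 1) * (L + 1) := mul_le_mul_of_nonneg_right h1 (by linarith)
      linarith
    calc 2 * ((10 * ρ ^ 2 + 4) * L) ≤ 28 * (R ^ 2 * L) := by linarith
      _ ≤ 28 * (R ^ 6 * ((9 * D + 1) * (W + 1) * (L + 1))) := by
          apply mul_le_mul_of_nonneg_left _ (by norm_num)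
          exact mul_le_mul e2 e3 hL (by positivity)
      _ = _ := by ring
  linarith

theorem finaly_of (hB : BRC) (h1 : PATH0) (h2 : CLSX) : FINALY := by
  classical
  obtain ⟨-, -, L0, hL0, hChL, -⟩ := count_num
  obtain ⟨C0, n, hC0, hP⟩ := h1
  obtain ⟨C1, K1, hC1, hbr⟩ := hB
  obtain ⟨C', hC'⟩ : ∃ C' : ℝ, C' = C0 * 4 ^ n + 1 := ⟨_, rfl⟩
  have hC'0 : 0 < C' := by rw [hC']; positivity
  have hC'1 : 1 ≤ C' := by
    have : 0 ≤ C0 * 4 ^ n := by positivity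
    linarith
  refine ⟨220653 * (C1 + 42) ^ 6 * (10 * C1) * (4 * (L0 + C' + 1) * C' + 1) * (L0 + 1),
    6 * (K1 + 1) + 2 + (2 * n + 5) + 5, by positivity, fun H Z hH hZ => ?_⟩
  rcases lt_or_ge H 2 with hlt | hH2
  · rw [empty_of_one hlt Z (fun l hl => (hZ l hl).1)]
    simp only [Finset.card_empty, Nat.cast_zero]
    have := lm_two hH
    have : 0 ≤ lm H := by linarith
    positivity
  have hl := lm_two hH
  have hl1 : 1 ≤ lm H := by linarith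
  have hl0 : 0 ≤ lm H := by linarith
  have hl4 : lm (4 * H) ≤ 4 * lm H := by
    have a := lm_double (H := 2 * H) (by omega)
    have b := lm_double hH
    rw [show 2 * (2 * H) = 4 * H by ring] at a
    linarith
  have hl40 : 0 ≤ lm (4 * H) := by linarith [lm_two (show 1 ≤ 4 * H by omega)]
  have hn1 : 1 ≤ lm H ^ n := one_le_pow₀ hl1
  have hB1 : 1 ≤ C' * lm H ^ n := by nlinarith
  have hpath : ∀ (P : List Bool) (S : Finset ℕ),
      (∀ m ∈ S, ∃ d l φ, P.take m ++ [d] <+: l ∧ P.take m ++ [!d] <+: P ∧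
        sz l ≤ 4 * H ∧ sz φ ≤ 4 * H ∧ φ ≠ l ∧ FF φ = FF l) → (S.card : ℝ) ≤ C' * lm H ^ n := by
    intro P S hS
    refine (hP (4 * H) P S (by omega) hS).trans ?_
    have e1 : lm (4 * H) ^ n ≤ (4 * lm H) ^ n := pow_le_pow_left₀ hl40 hl4 n
    calc C0 * lm (4 * H) ^ n ≤ C0 * (4 * lm H) ^ n := mul_le_mul_of_nonneg_left e1 hC0.le
      _ = (C0 * 4 ^ n) * lm H ^ n := by rw [mul_pow]; ring
      _ ≤ C' * lm H ^ n := by
          apply mul_le_mul_of_nonneg_right _ (by positivity)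
          rw [hC']
          linarith
  -- the threshold
  obtain ⟨f1, f2, f3, -, -, -, -⟩ := rh_facts hH2
  obtain ⟨ρ, hρd⟩ : ∃ ρ, ρ = ⌈C1 * lm H ^ K1⌉₊ + rh H := ⟨_, rfl⟩
  have hρ2 : 2 ≤ ρ := by omega
  have hH0 : (0 : ℝ) < H := by exact_mod_cast (by omega : 0 < H)
  have hlg : Real.log H + 1 ≤ lm H := by
    unfold lm
    rw [Real.log_mul (by norm_num) hH0.ne']
    have := Real.log_two_gt_d9
    linarith
  have hlg0 : 0 ≤ Real.log H + 1 := by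
    have := Real.log_nonneg (show (1 : ℝ) ≤ H by exact_mod_cast hH)
    linarith
  have hs : (10 : ℝ) ^ 20 * ((2 * H : ℕ) : ℝ) ^ 20 ≤ 4 ^ ρ :=
    f1.trans (pow_le_pow_right₀ (by norm_num) (by omega))
  have hexp : Real.exp (C1 * (Real.log H + 1) ^ K1) ≤ 4 ^ ρ := by
    have hlog4 : (1 : ℝ) ≤ Real.log 4 := by
      rw [Real.le_log_iff_exp_le (by norm_num)]
      have := Real.exp_one_lt_d9
      linarith
    have h4 : (4 : ℝ) ^ ρ = Real.exp (Real.log 4 * ρ) := by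
      rw [← Real.rpow_natCast, Real.rpow_def_of_pos (by norm_num)]
    rw [h4]
    apply Real.exp_le_exp.2
    have e1 : C1 * (Real.log H + 1) ^ K1 ≤ C1 * lm H ^ K1 :=
      mul_le_mul_of_nonneg_left (pow_le_pow_left₀ hlg0 hlg K1) (by linarith)
    have e2 : C1 * lm H ^ K1 ≤ ρ := by
      have e3 : C1 * lm H ^ K1 ≤ ⌈C1 * lm H ^ K1⌉₊ := Nat.le_ceil _
      have e4 : ((⌈C1 * lm H ^ K1⌉₊ : ℕ) : ℝ) ≤ ρ := by
        rw [hρd]; push_cast; linarith [Nat.cast_nonneg (α := ℝ) (rh H)]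
      linarith
    calc C1 * (Real.log H + 1) ^ K1 ≤ 1 * ρ := by linarith
      _ ≤ Real.log 4 * ρ := mul_le_mul_of_nonneg_right hlog4 (Nat.cast_nonneg _)
  have hρR : (ρ : ℝ) ≤ (C1 + 42) * lm H ^ (K1 + 1) := by
    have e1 : ((⌈C1 * lm H ^ K1⌉₊ : ℕ) : ℝ) ≤ C1 * lm H ^ K1 + 1 :=
      (Nat.ceil_lt_add_one (by positivity)).le
    have e2 : lm H ^ K1 ≤ lm H ^ (K1 + 1) := pow_le_pow_right₀ hl1 (by omega)
    have e3 : (1 : ℝ) ≤ lm H ^ (K1 + 1) := one_le_pow₀ hl1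
    have e4 : lm H ≤ lm H ^ (K1 + 1) := le_self_pow₀ hl1 (by omega)
    have e5 : C1 * lm H ^ K1 ≤ C1 * lm H ^ (K1 + 1) := mul_le_mul_of_nonneg_left e2 (by linarith)
    rw [hρd]
    push_cast
    linarith
  have hD : DP H ρ (C1 * lm H ^ 2) := by
    intro k k' R hyp hne T hT
    refine (hbr H (4 ^ ρ) k k' R hH2 hexp hyp hne T hT).trans ?_
    have e1 : C1 * (Real.log H + 1) ^ 2 ≤ C1 * lm H ^ 2 :=
      mul_le_mul_of_nonneg_left (pow_le_pow_left₀ hlg0 hlg 2) (by linarith)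
    have e2 : 0 ≤ C1 * lm H ^ 2 := by positivity
    linarith
  have hcls := h2 H (2 * ρ * (H + 2)) (L0 * lm H ^ 5) (C' * lm H ^ n) hH2 (hChL H hH2) hB1 hpath
  have key := count_classD hH2 hρ2 le_rfl hs hcls (show 0 ≤ C1 * lm H ^ 2 by positivity) hD (hChL H hH2) Z
    (fun l hl => by
      obtain ⟨hs, l', hs', hne, hval⟩ := hZ l hl
      exact ⟨⟨⟨l', hne, hval⟩, hs⟩, hs, l', hs', hne, hval⟩)
  have hR1 : 1 ≤ (C1 + 42) * lm H ^ (K1 + 1) := by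
    have e3 : (1 : ℝ) ≤ lm H ^ (K1 + 1) := one_le_pow₀ hl1
    nlinarith
  refine key.trans ((num_le (Nat.cast_nonneg _) hρR hR1 (by positivity) (by positivity) (by positivity)).trans ?_)
  have e5 : (1 : ℝ) ≤ lm H ^ 5 := one_le_pow₀ hl1
  have b1 : 9 * (C1 * lm H ^ 2) + 1 ≤ 10 * C1 * lm H ^ 2 := by
    have : (1 : ℝ) ≤ lm H ^ 2 := one_le_pow₀ hl1
    nlinarith
  have b2 : 4 * (L0 * lm H ^ 5 + C' * lm H ^ n + 1) * (C' * lm H ^ n) + 1 ≤
      (4 * (L0 + C' + 1) * C' + 1) * lm H ^ (2 * n + 5) := by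
    have a1 : L0 * lm H ^ 5 ≤ L0 * lm H ^ (n + 5) :=
      mul_le_mul_of_nonneg_left (pow_le_pow_right₀ hl1 (by omega)) hL0.le
    have a2 : C' * lm H ^ n ≤ C' * lm H ^ (n + 5) :=
      mul_le_mul_of_nonneg_left (pow_le_pow_right₀ hl1 (by omega)) hC'0.le
    have a3 : (1 : ℝ) ≤ lm H ^ (n + 5) := one_le_pow₀ hl1
    have a4 : L0 * lm H ^ 5 + C' * lm H ^ n + 1 ≤ (L0 + C' + 1) * lm H ^ (n + 5) := by linarith
    have a5 : (1 : ℝ) ≤ lm H ^ (2 * n + 5) := one_le_pow₀ hl1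
    calc 4 * (L0 * lm H ^ 5 + C' * lm H ^ n + 1) * (C' * lm H ^ n) + 1
        ≤ 4 * ((L0 + C' + 1) * lm H ^ (n + 5)) * (C' * lm H ^ n) + lm H ^ (2 * n + 5) := by gcongr
      _ = (4 * (L0 + C' + 1) * C' + 1) * lm H ^ (2 * n + 5) := by ring
  have b3 : L0 * lm H ^ 5 + 1 ≤ (L0 + 1) * lm H ^ 5 := by linarith
  calc 220653 * ((C1 + 42) * lm H ^ (K1 + 1)) ^ 6 * (9 * (C1 * lm H ^ 2) + 1) *
        (4 * (L0 * lm H ^ 5 + C' * lm H ^ n + 1) * (C' * lm H ^ n) + 1) * (L0 * lm H ^ 5 + 1)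
      ≤ 220653 * ((C1 + 42) * lm H ^ (K1 + 1)) ^ 6 * (10 * C1 * lm H ^ 2) *
        ((4 * (L0 + C' + 1) * C' + 1) * lm H ^ (2 * n + 5)) * ((L0 + 1) * lm H ^ 5) := by gcongr
    _ = _ := by rw [mul_pow, ← pow_mul]; ring

end

end Pool.Agent.N576.MX3
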