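import Mathlib
import Pool.Agent.N576.MX2.Z2
import Pool.Agent.N576.MX3.P2

set_option autoImplicit false

/-!
# From words to triples
-/

namespace Pool.Agent.N576.MX3

open Pool.Agent.H499R2 Pool.Agent.TH880.MK Pool.Agent.N576.MK
open Pool.Agent.N576.MX (Exc)

noncomputable section

/-- the number of triples which violate uniqueness -/
theorem bad_poly (h : FINALY) : ∃ (C : ℝ) (K : ℕ), 0 < C ∧ ∀ N : ℕ, 16 ≤ N →
    ((ST N N).ncard : ℝ) ≤ C * (Real.log (Real.log N)) ^ K := by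
  classical
  obtain ⟨C, K, hC, h⟩ := h
  refine ⟨C * 7 ^ K, K, by positivity, fun N hN16' => ?_⟩
  have hN : 3 ≤ N := by omega
  obtain ⟨l1, l2, l3, l4⟩ := log_facts hN
  have hfin : (ST N N).Finite := (AT_finite N N).subset fun t ht => ⟨ht.1, ht.2.1, ht.2.2.1⟩
  have hch : ∀ t ∈ ST N N, ∃ l, Ph (desc root l) = ((t.1 : ℤ), (t.2.1 : ℤ), (t.2.2 : ℤ)) ∧
      Exc ⌊2 * Real.log (3 * N)⌋₊ l := by
    rintro ⟨a, b, m⟩ ⟨h1, h2, h3, a', b', h4, h5⟩
    simp only at h1 h2 h3 h4 h5 ⊢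
    have hex : Ex m := by
      refine ⟨(a, b), (a', b'), h4.symm, ?_, ?_⟩
      · exact ⟨h1.1, h1.2.1, h1.2.2.1, h1.2.2.2⟩
      · exact ⟨h5.1, h5.2.1, h5.2.2.1, h5.2.2.2⟩
    have hm5 := Ex_five hex (by have := h1.1; have := h1.2.1; have := h1.2.2.1; omega)
    obtain ⟨l, hl⟩ := MT_word h1 hm5
    obtain ⟨l', hl'⟩ := MT_word h5 hm5
    have hc : (desc root l).c = m := congrArg (fun z => z.2.2) hl
    have hc' : (desc root l').c = m := congrArg (fun z => z.2.2) hl'
    refine ⟨l, hl, sz_of_c hN (by rw [hc]; exact_mod_cast h3), l', sz_of_c hN (by rw [hc']; exact_mod_cast h3), ?_,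
      FF_of_c (by rw [hc, hc'])⟩
    rintro rfl
    rw [hl] at hl'
    simp only [Prod.mk.injEq, Nat.cast_inj] at hl'
    exact h4 (Prod.ext hl'.1.symm hl'.2.1.symm)
  choose! f hf1 hf2 using hch
  have hinj : Set.InjOn f (hfin.toFinset : Set (ℕ × ℕ × ℕ)) := by
    intro t ht t' ht' he
    rw [Set.Finite.coe_toFinset] at ht ht'
    have e1 := hf1 t ht
    have e2 := hf1 t' ht'
    rw [he, e2] at e1
    simp only [Prod.mk.injEq, Nat.cast_inj] at e1
    exact Prod.ext e1.1.symm (Prod.ext e1.2.1.symm e1.2.2.symm)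
  have key := h ⌊2 * Real.log (3 * N)⌋₊ (hfin.toFinset.image f) l3 (by
    intro l hl
    obtain ⟨t, ht, rfl⟩ := Finset.mem_image.mp hl
    rw [Set.Finite.mem_toFinset] at ht
    exact hf2 t ht)
  rw [Finset.card_image_of_injOn hinj] at key
  rw [Set.ncard_eq_toFinset_card _ hfin]
  refine key.trans ?_
  rw [mul_assoc, ← mul_pow]
  apply mul_le_mul_of_nonneg_left _ hC.le
  have hN16 : Real.exp 1 ≤ Real.log N := by
    have e1 : (16 : ℝ) ≤ N := by exact_mod_cast hN16'
    have e2 : Real.log 16 ≤ Real.log N := Real.log_le_log (by norm_num) e1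
    have e3 : Real.log 16 = 4 * Real.log 2 := by
      rw [show (16 : ℝ) = 2 ^ 4 by norm_num, Real.log_pow]; norm_num
    have e4 := Real.log_two_gt_d9
    have e5 := Real.exp_one_lt_d9
    linarith
  have hll : 1 ≤ Real.log (Real.log N) := by
    rw [Real.le_log_iff_exp_le (by linarith)]
    exact hN16
  have hHpos : (0 : ℝ) < (⌊2 * Real.log (3 * N)⌋₊ : ℕ) := by exact_mod_cast (by omega : 0 < ⌊2 * Real.log (3 * N)⌋₊)
  apply pow_le_pow_left₀ (by linarith [lm_two l3])
  have e1 : Real.log (2 * (⌊2 * Real.log (3 * N)⌋₊ : ℕ)) ≤ Real.log 8 + Real.log (Real.log N) := by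
    rw [← Real.log_mul (by norm_num) (by linarith)]
    apply Real.log_le_log (by positivity)
    linarith
  have e2 : Real.log 8 ≤ 3 := by
    rw [show (8 : ℝ) = 2 ^ 3 by norm_num, Real.log_pow]
    have := Real.log_two_lt_d9
    norm_num
    linarith
  unfold lm
  linarith

end

end Pool.Agent.N576.MX3
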