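import Mathlib
import Pool.Agent.N576.MX2.Z2
import Pool.Agent.N373.MX2_CLSX
import Pool.Agent.N395.MX3_BRC
import Pool.Agent.N576.MX3.B3
import Pool.Agent.N576.MX3.P3

set_option autoImplicit false

/-!
# The main theorems of the project MX3
-/

namespace Pool.Agent.N576.MX3

theorem brc : BRC := Pool.Agent.N395.MX3.brc_of b3 rank2

theorem finaly : FINALY := finaly_of brc Pool.Agent.N576.MX2.path0 Pool.Agent.N373.MX2.main

/-- the number of ordered Markov triples up to `N` which violate uniqueness -/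
theorem bad_main : ∃ (C : ℝ) (K : ℕ), 0 < C ∧ ∀ N : ℕ, 16 ≤ N →
    ((Pool.Agent.N576.MK.ST N N).ncard : ℝ) ≤ C * (Real.log (Real.log N)) ^ K := bad_poly finaly

end Pool.Agent.N576.MX3
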