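import Mathlib
import Pool.Agent.N576.MX2.Z3
import Pool.Agent.N576.MX3.P4

set_option autoImplicit false

/-!
# The distinct Markoff numbers and the triples: explicit formula
-/

namespace Pool.Agent.N576.MX3

open Filter Asymptotics Pool.Agent.H499R2 Pool.Agent.N576.MK Pool.Agent.H609R3.NM

/-- the excess of the number of triples over the number of numbers -/
theorem excess_poly : ∃ (C : ℝ) (K : ℕ), 0 < C ∧ ∀ N : ℕ, 16 ≤ N →
    (tri N : ℝ) - mkN N ≤ C * (Real.log (Real.log N)) ^ K := by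
  obtain ⟨C, K, hC, h⟩ := bad_main
  refine ⟨C, K, hC, fun N hN => ?_⟩
  have h1 := h N hN
  have h2 : (tri N : ℝ) ≤ mkN N + (ST N N).ncard := by exact_mod_cast Pool.Agent.N576.MX.excess_bad N
  linarith

/-- the logarithm of the `n`th Markoff number -/
theorem formula {c : ℝ} (hc : 0 < c) (h : (fun N : ℕ => (tri N : ℝ) - c * Real.log (3 * N) ^ 2) =o[atTop]
    (fun N : ℕ => Real.log N)) : ∃ (K : ℝ) (M : ℕ), ∀ n : ℕ, 3 ≤ n →
    |Real.log (3 * mk n) - Real.sqrt (n / c) + ((tri (mk n) : ℝ) - c * Real.log (3 * mk n) ^ 2) / (2 * Real.sqrt (c * n))| ≤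
      K * ((Real.log n) ^ M / Real.sqrt n) := by
  obtain ⟨C, M, hC, hE⟩ := excess_poly
  suffices hs : ∃ K : ℝ, ∀ᶠ n : ℕ in atTop,
      |Real.log (3 * mk n) - Real.sqrt (n / c) +
        ((tri (mk n) : ℝ) - c * Real.log (3 * mk n) ^ 2) / (2 * Real.sqrt (c * n))| ≤
      K * ((Real.log n) ^ M / Real.sqrt n) by
    obtain ⟨K, hK⟩ := Pool.Agent.N576.MX2.EQ.absorb
      (fun n => Real.log (3 * mk n) - Real.sqrt (n / c) +
        ((tri (mk n) : ℝ) - c * Real.log (3 * mk n) ^ 2) / (2 * Real.sqrt (c * n)))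
      (fun n => (Real.log n) ^ M / Real.sqrt n) 3 (fun n hn => by
        have h1 : (1 : ℝ) < n := by exact_mod_cast (by omega : 1 < n)
        have := Real.log_pos h1
        positivity) hs
    exact ⟨K, M, hK⟩
  have hR := (R_small h).def one_pos
  have hE0 : E =o[atTop] L := E_iff.2 Pool.Agent.N576.MX.excess_small
  have hE1 := hE0.def one_pos
  refine ⟨(C / c + 1 / c ^ 2) * Real.sqrt c, ?_⟩
  filter_upwards [hR, hE1, basic c, L_tendsto.eventually_ge_atTop 1, L_tendsto.eventually_ge_atTop (4 / c),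
    mk_tendsto.eventually_ge_atTop 16, eventually_ge_atTop 3] with n b1 b2 b3 b4 b5 b6 b7
  have hL0 : 0 < L n := by linarith
  have hE0' := E_nonneg n
  rw [Real.norm_eq_abs, Real.norm_eq_abs, one_mul, abs_of_pos hL0] at b1 b2
  rw [abs_of_nonneg hE0'] at b2
  have hn3 : (3 : ℝ) ≤ n := by exact_mod_cast b7
  have hn0 : (0 : ℝ) < n := by linarith
  set s := Real.sqrt (n / c) with hs
  have hs0 : 0 < s := Real.sqrt_pos.2 (by positivity)
  have hss : c * s ^ 2 = n := by rw [hs, Real.sq_sqrt (by positivity)]; field_simp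
  have hcs : Real.sqrt (c * n) = c * s := by
    rw [show c * (n : ℝ) = (c * s) ^ 2 by rw [mul_pow, ← hss]; ring]
    exact Real.sqrt_sq (by positivity)
  have hr := abs_le.1 b1
  -- the size of `L n`
  have hcL : 4 ≤ c * L n := by
    rw [div_le_iff₀ hc] at b5
    linarith
  have hLn : L n ≤ n := by
    nlinarith [hr.1, hr.2, mul_le_mul_of_nonneg_right hcL hL0.le]
  -- the excess
  have hlm : 1 ≤ Real.log (mk n) := by
    have e1 : (16 : ℝ) ≤ mk n := by exact_mod_cast b6
    have e2 : Real.log 16 ≤ Real.log (mk n) := Real.log_le_log (by norm_num) e1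
    have e3 : Real.log 16 = 4 * Real.log 2 := by
      rw [show (16 : ℝ) = 2 ^ 4 by norm_num, Real.log_pow]; norm_num
    have e4 := Real.log_two_gt_d9
    linarith
  have hlln : Real.log (Real.log (mk n)) ≤ Real.log n :=
    Real.log_le_log (by linarith) ((logmk_le n).trans hLn)
  have hEn : E n ≤ C * (Real.log n) ^ M := by
    refine (hE (mk n) b6).trans ?_
    apply mul_le_mul_of_nonneg_left _ hC.le
    exact pow_le_pow_left₀ (Real.log_nonneg hlm) hlln M
  have hlogn : 1 ≤ (Real.log n) ^ M := by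
    apply one_le_pow₀
    rw [Real.le_log_iff_exp_le hn0]
    linarith [Real.exp_one_lt_d9]
  -- the formula
  have hX : (Real.log (3 * mk n) - s + ((tri (mk n) : ℝ) - c * Real.log (3 * mk n) ^ 2) / (2 * Real.sqrt (c * n))) =
      E n / (c * (L n + s)) - R c n * (E n + R c n) / (2 * c ^ 2 * s * (L n + s) ^ 2) := by
    have e1 : Real.log (3 * mk n) = L n := rfl
    have e2 : (tri (mk n) : ℝ) - c * Real.log (3 * mk n) ^ 2 = - R c n := by
      unfold R
      rw [e1]
      ring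
    have hdiff : c * ((L n - s) * (L n + s)) = E n + R c n := by
      have : c * L n ^ 2 - c * s ^ 2 = E n + R c n := by rw [b3, hss]; ring
      linarith
    have hpos : 0 < L n + s := by linarith
    have e3 : L n - s = (E n + R c n) / (c * (L n + s)) := by
      rw [eq_div_iff (by positivity)]
      linarith
    rw [e2, e1, hcs]
    have e4 : E n + R c n = c * ((L n - s) * (L n + s)) := hdiff.symm
    have e5 : R c n = c * ((L n - s) * (L n + s)) - E n := by linarith
    rw [e4, e5]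
    field_simp
    ring
  rw [hX]
  have hA : |E n / (c * (L n + s))| ≤ E n / (c * s) := by
    rw [abs_of_nonneg (by positivity)]
    apply div_le_div_of_nonneg_left hE0' (by positivity)
    apply mul_le_mul_of_nonneg_left _ hc.le
    linarith
  have hB : |R c n * (E n + R c n) / (2 * c ^ 2 * s * (L n + s) ^ 2)| ≤ 1 / (c ^ 2 * s) := by
    rw [abs_div, abs_mul, abs_of_pos (show 0 < 2 * c ^ 2 * s * (L n + s) ^ 2 by positivity)]
    rw [div_le_div_iff₀ (by positivity) (by positivity)]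
    have e1 : |E n + R c n| ≤ 2 * L n := by
      rw [abs_le]
      constructor <;> linarith [hr.1, hr.2]
    have e2 : |R c n| * |E n + R c n| ≤ L n * (2 * L n) := mul_le_mul b1 e1 (abs_nonneg _) hL0.le
    have e3 : L n ^ 2 ≤ (L n + s) ^ 2 := pow_le_pow_left₀ hL0.le (by linarith) 2
    have e4 : 0 < c ^ 2 * s := by positivity
    calc |R c n| * |E n + R c n| * (c ^ 2 * s) ≤ (L n * (2 * L n)) * (c ^ 2 * s) :=
          mul_le_mul_of_nonneg_right e2 e4.le
      _ = 2 * (c ^ 2 * s) * L n ^ 2 := by ring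
      _ ≤ 2 * (c ^ 2 * s) * (L n + s) ^ 2 := mul_le_mul_of_nonneg_left e3 (by positivity)
      _ = 1 * (2 * c ^ 2 * s * (L n + s) ^ 2) := by ring
  have hsn : 1 / s = Real.sqrt c / Real.sqrt n := by
    rw [hs, Real.sqrt_div' _ hc.le]
    field_simp
  calc |E n / (c * (L n + s)) - R c n * (E n + R c n) / (2 * c ^ 2 * s * (L n + s) ^ 2)|
      ≤ |E n / (c * (L n + s))| + |R c n * (E n + R c n) / (2 * c ^ 2 * s * (L n + s) ^ 2)| := abs_sub _ _
    _ ≤ E n / (c * s) + 1 / (c ^ 2 * s) := add_le_add hA hB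
    _ = (E n / c + 1 / c ^ 2) * (1 / s) := by field_simp
    _ ≤ (C * (Real.log n) ^ M / c + (Real.log n) ^ M / c ^ 2) * (1 / s) := by
        apply mul_le_mul_of_nonneg_right _ (by positivity)
        apply add_le_add
        · exact div_le_div_of_nonneg_right hEn hc.le
        · exact div_le_div_of_nonneg_right hlogn (by positivity)
    _ = (C / c + 1 / c ^ 2) * Real.sqrt c * ((Real.log n) ^ M / Real.sqrt n) := by
        rw [hsn]
        ring

/-- **The distinct Markoff numbers.** -/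
theorem zagier_main : ∃ c : ℝ, 0 < c ∧ Tendsto (fun N : ℕ => (tri N : ℝ) / Real.log N ^ 2) atTop (nhds c) ∧
    Tendsto (fun n : ℕ => (mk n : ℝ) / Real.exp (Real.sqrt n / Real.sqrt c)) atTop (nhds (1 / 3)) ∧
    (∃ (K : ℝ) (M : ℕ), ∀ n : ℕ, 3 ≤ n →
      |Real.log (3 * mk n) - Real.sqrt (n / c) +
        ((tri (mk n) : ℝ) - c * Real.log (3 * mk n) ^ 2) / (2 * Real.sqrt (c * n))| ≤
      K * ((Real.log n) ^ M / Real.sqrt n)) ∧
    ∀ θ : ℝ, 0 ≤ θ → θ < 1 →
    ((∀ ε : ℝ, 0 < ε → ∃ K : ℝ, ∀ n : ℕ, 1 ≤ n →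
      |(mk n : ℝ) / Real.exp (Real.sqrt n / Real.sqrt c) - 1 / 3| ≤ K * (n : ℝ) ^ (-(1 - θ) / 2 + ε)) ↔
    (∀ ε : ℝ, 0 < ε → ∃ K : ℝ, ∀ N : ℕ, 3 ≤ N →
      |(tri N : ℝ) - c * (Real.log (3 * N)) ^ 2| ≤ K * (Real.log N) ^ (θ + ε))) := by
  obtain ⟨c, hc, h⟩ := tri_asymp
  obtain ⟨c', hc', h1, h2, h3⟩ := Pool.Agent.N576.MX2.zagier_main
  have hcc : c' = c := tendsto_nhds_unique h1 (tri_limit h)
  subst hcc
  exact ⟨c', hc', h1, h2, formula hc' h, h3⟩

end Pool.Agent.N576.MX3
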